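import Mathlib
import Pool.Agent.U398.Art.Main

/-!
# Artin's holomorphy conjecture at the central point, zeros of small order

`Pool.Agent.H541R3.ART.Irr G` is the set of irreducible complex characters of the finite group `G`.

`Pool.Agent.H541R3.ART.ArtinData G s₀` is a family of functions with the formal properties of the
Artin L-functions of a Galois extension `E/K` with group `G` near a point `s₀ ≠ 1`: functions
`L χ` for the irreducible characters `χ` of `G` and `Lin H ψ` for the linear characters `ψ` of the
subgroups `H`, such that `L χ` is meromorphic and not identically zero near `s₀` (Brauer), `Lin H ψ`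
has no pole at `s₀` (Artin reciprocity and Hecke), and `Lin H ψ` is the product of the
`L χ ^ ⟨χ|_H, ψ⟩` (induction). In particular `Lin ⊥ 1` stands for the Dedekind zeta function of `E`.

`Pool.Agent.U398.Art.ind χ` is the Frobenius–Schur indicator, the mean of `χ (g ^ 2)`. It is `1`,
`0` or `-1` according as the irreducible character `χ` is orthogonal (afforded by a real
representation), not self-dual, or symplectic.

`Pool.Agent.U398.Art.Central A` lists the facts at the central point `s₀ = 1 / 2` which come from
the functional equation `Λ (s, χ) = W (χ) Λ (1 - s, χ̄)`: dual characters have the same order;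
`L χ` has even order if `χ` is orthogonal, because `W (χ) = 1` (Fröhlich and Queyranne); and
`Lin H ψ` has even order if `ψ ^ 2 = 1` (Hecke).

`Pool.Agent.U398.Art.Poles A` is the set of the irreducible characters `χ` such that `L χ` has a
pole at `s₀`.

Proof. The orders at `s₀` are the multiplicities `n` of a class function `θ` whose restriction to
every subgroup has nonnegative multiplicities against all linear characters, `θ(1)` is the order `r`
of the zeta function of `E`, and `r` is even. If `r = 2`, the function
`(θ(g) ^ 2 - θ(g ^ 2)) / 2` is a linear character of `G`; as `θ` is real, the theorem of Frobenius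
and Schur gives that the sum of the terms `n ^ 2 - ind χ * n` over all `χ` is `2` or `0`. All these
terms are nonnegative. Moreover the sum of the `n ^ 2` is at most `4`, with equality only if `θ / 2`
is a linear character.
-/

set_option autoImplicit false

open Pool.Agent.H541R3.ART Pool.Agent.U398.Art

/-- Let `E/K` be a Galois extension with group `G` (an arbitrary finite group) and suppose that the
Dedekind zeta function of `E` has order `r ≤ 3` at the central point `1 / 2`.

(1) Only L-functions of symplectic irreducible characters can have a pole at `1 / 2`; the L-functions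
of the orthogonal irreducible characters of degree at least two have neither a zero nor a pole there.
(2) At most two L-functions have a pole, and these poles are simple.
(3) If the L-functions of the symplectic irreducible characters have even order (for instance if
there are no such characters, or if their root numbers are `1`), then all L-functions are holomorphic
at `1 / 2`, and they do not vanish there unless `χ` is linear.
(4) If `r = 2`, then for exactly one irreducible character `χ`, up to duality, the L-function
vanishes at `1 / 2`, and either `χ` is linear and orthogonal, its L-function has a double zero and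
there are no poles; or `χ` is not self-dual, its zero is simple and there is at most one pole, and
`χ` is linear if there is none; or `χ` is symplectic, its zero is simple and there are at most two
poles, and `χ` has degree two if there is none. -/
theorem Pool.Agent.Results.MP_d2121a_nt.CentralPoint.result (G : Type) [Group G] [Finite G]
    (A : ArtinData G (1 / 2)) (hA : Central A) (r : ℕ)
    (hr : meromorphicOrderAt (A.Lin ⊥ 1) (1 / 2) = (r : WithTop ℤ)) (h3 : r ≤ 3) :
    (∀ χ ∈ Irr G, ind χ ≠ -1 → 0 ≤ meromorphicOrderAt (A.L χ) (1 / 2)) ∧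
    (∀ χ ∈ Irr G, ind χ = 1 → χ 1 ≠ 1 → meromorphicOrderAt (A.L χ) (1 / 2) = 0) ∧
    (Poles A).ncard ≤ 2 ∧
    (∀ χ ∈ Irr G, ((-1 : ℤ) : WithTop ℤ) ≤ meromorphicOrderAt (A.L χ) (1 / 2)) ∧
    ((∀ χ ∈ Irr G, ind χ = -1 →
        ∃ k : ℤ, meromorphicOrderAt (A.L χ) (1 / 2) = ((2 * k : ℤ) : WithTop ℤ)) →
      ∀ χ ∈ Irr G, 0 ≤ meromorphicOrderAt (A.L χ) (1 / 2) ∧
        (χ 1 ≠ 1 → meromorphicOrderAt (A.L χ) (1 / 2) = 0)) ∧
    (r = 2 → ∃ χ ∈ Irr G, 0 < meromorphicOrderAt (A.L χ) (1 / 2) ∧
      (∀ ψ ∈ Irr G, ψ ≠ χ → ψ ≠ (fun g => χ g⁻¹) → meromorphicOrderAt (A.L ψ) (1 / 2) ≤ 0) ∧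
      ((ind χ = 1 ∧ χ 1 = 1 ∧ meromorphicOrderAt (A.L χ) (1 / 2) = ((2 : ℤ) : WithTop ℤ) ∧
          Poles A = ∅) ∨
        (ind χ = 0 ∧ meromorphicOrderAt (A.L χ) (1 / 2) = ((1 : ℤ) : WithTop ℤ) ∧
          (Poles A).ncard ≤ 1 ∧ (Poles A = ∅ → χ 1 = 1)) ∨
        (ind χ = -1 ∧ meromorphicOrderAt (A.L χ) (1 / 2) = ((1 : ℤ) : WithTop ℤ) ∧
          (Poles A).ncard ≤ 2 ∧ (Poles A = ∅ → χ 1 = 2)))) := by
  obtain ⟨h1, h2, h4, h5⟩ := central_small A hA hr h3
  refine ⟨h1, h2, h4, ?_, h5, ?_⟩
  · intro χ hχ
    have hr2 : r = 0 ∨ r = 2 := by
      obtain ⟨k, hk⟩ := even_top A hA hr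
      omega
    rcases hr2 with rfl | rfl
    · rw [← A.coe_ord hχ, ord_zero A hr hχ]
      exact_mod_cast (by norm_num : (-1 : ℤ) ≤ 0)
    · by_cases hneg : meromorphicOrderAt (A.L χ) (1 / 2) < 0
      · exact ((central_two A hA hr).1 χ ⟨hχ, hneg⟩).2.ge
      · push Not at hneg
        refine le_trans ?_ hneg
        exact_mod_cast (by norm_num : (-1 : ℤ) ≤ 0)
  · rintro rfl
    exact (central_two A hA hr).2
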