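import Mathlib
import Pool.Agent.U93.Exact

/-!
# Artin's holomorphy conjecture at zeros of small order: the exact range for `A_n ≤ G ≤ S_n`

`Pool.Agent.H541R3.ART.Irr G` is the set of irreducible complex characters of the finite group `G`.

`Pool.Agent.H541R3.ART.ArtinData G s₀` is a family of functions with the formal properties of the
Artin L-functions of a Galois extension `E/K` with group `G` near a point `s₀ ≠ 1`: functions
`L χ` for the irreducible characters `χ` of `G` and `Lin H ψ` for the linear characters `ψ` of the
subgroups `H`, such that `L χ` is meromorphic and not identically zero near `s₀` (Brauer), `Lin H ψ`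
has no pole at `s₀` (Artin reciprocity and Hecke), and `Lin H ψ` is the product of the
`L χ ^ ⟨χ|_H, ψ⟩` (induction). In particular `Lin ⊥ 1` stands for the Dedekind zeta function of `E`.
The Artin L-functions of `E/K` are such a family, so a theorem about all families is a theorem about
Artin L-functions.

The proof. The orders at `s₀` give a Heilbronn function on `G`: a class function whose restriction
to every subgroup `H` has a nonnegative integer multiplicity against every linear character of `H`;
its value at `1` is the order `r` of `ζ_E`. Conversely every Heilbronn function comes from a family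
(`Pool.Agent.U93.exists_artin`; Brauer's characterization of characters).
* In the range every Heilbronn function on `A_n` is constant (`Pool.Agent.U93.alt_range`). For
  `n = q m`, `q = 4` or `q` an odd prime, the group of even block translations shows that either a
  double transposition is in the kernel of the function or its values at the block translations are
  `r` minus the number of moved points; an involution in the kernel forces constancy, and otherwise
  the values at semiregular elements of odd order are `r - n`, which contradicts the nonnegativity
  of the multiplicity of the trivial character of a suitable semidirect product.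
* Beyond the range let `p` be a prime with `p ≤ n < 2 p` and `p = n` or `p` not a Mersenne prime.
  The function `fix - a + p 1_p` with `a = 2` for `n = p` and `a = 1` otherwise, where `1_p` is the
  indicator of the permutations of order divisible by `p`, is a Heilbronn function
  (`Pool.Agent.U93.thf_heilbronn`), but not a character, since a cycle of length `p` would be in its
  kernel.
-/

set_option autoImplicit false

open Pool.Agent.H541R3.ART Equiv

/-- Let `n ≥ 8` and let `A_n ≤ G ≤ S_n` be the Galois group of `E/K`.
(1) If the order `r` of `ζ_E` at `s₀` is at most `n - 2`, or at most `n - 3` if `n` is prime, then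
`L χ` is holomorphic at `s₀` for all irreducible characters `χ` of `G`, and nonzero at `s₀` if `χ` is
nontrivial on `A_n`.
(2) This range is exact: for every larger `r` (and `n ≠ 10`) there are functions with the same formal
properties, with `Lin ⊥ 1` of order `r` at `s₀`, such that some `L χ` has a pole at `s₀`. So
`n - 2` (`n` composite) and `n - 3` (`n` prime) are the limits of the method of Heilbronn, Stark,
Foote and Murty for alternating and symmetric groups. -/
theorem Pool.Agent.Results.MP_d2121a_nt.ExactRange.result
    (n : ℕ) (hn : 8 ≤ n) (G : Subgroup (Perm (Fin n))) (hG : alternatingGroup (Fin n) ≤ G)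
    (s₀ : ℂ) (r : ℕ) :
    ((r + 3 ≤ n ∨ (r + 2 ≤ n ∧ ¬ n.Prime)) →
      ∀ A : ArtinData G s₀, meromorphicOrderAt (A.Lin ⊥ 1) s₀ = (r : WithTop ℤ) →
      ∀ χ ∈ Irr G, 0 ≤ meromorphicOrderAt (A.L χ) s₀ ∧
        ((∃ g : G, (g : Perm (Fin n)) ∈ alternatingGroup (Fin n) ∧ χ g ≠ χ 1) →
          meromorphicOrderAt (A.L χ) s₀ = 0)) ∧
    (¬ (r + 3 ≤ n ∨ (r + 2 ≤ n ∧ ¬ n.Prime)) → n ≠ 10 →
      ∃ A : ArtinData G s₀, meromorphicOrderAt (A.Lin ⊥ 1) s₀ = (r : WithTop ℤ) ∧
        ∃ χ ∈ Irr G, meromorphicOrderAt (A.L χ) s₀ < 0) :=
  ⟨fun hr A hA χ hχ => Pool.Agent.U93.artin_range hn G hG A hA hr χ hχ,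
   fun hr h10 => Pool.Agent.U93.pole_beyond hn h10 hr G hG s₀⟩
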