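import Mathlib
import Pool.Agent.U93.S.Gen

/-!
# Artin L-functions at zeros of order less than about `n ^ k / k!`

`Pool.Agent.H541R3.ART.Irr G` is the set of irreducible complex characters of the finite group `G`.

`Pool.Agent.H541R3.ART.ArtinData G s₀` is a family of functions with the formal properties of the
Artin L-functions of a Galois extension `E/K` with group `G` near a point `s₀ ≠ 1`: functions
`L χ` for the irreducible characters `χ` of `G` and `Lin H ψ` for the linear characters `ψ` of the
subgroups `H`, such that `L χ` is meromorphic and not identically zero near `s₀` (Brauer), `Lin H ψ`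
has no pole at `s₀` (Artin reciprocity and Hecke), and `Lin H ψ` is the product of the
`L χ ^ ⟨χ|_H, ψ⟩` (induction). In particular `Lin ⊥ 1` stands for the Dedekind zeta function of `E`.

`Pool.Agent.N850.Art.Central j`: the group `Γ` is generated by the image of `j : S_n → Γ` and the
elements which commute with it, for example `Γ = S_n` or `Γ = S_n × K` for a finite group `K`.

`Pool.Agent.U93.L.Dj h` is the set of the permutations whose support is disjoint from that of `h`,
the symmetric group `Sym(Z)` of the set `Z` of the fixed points of `h`.

`Pool.Agent.U93.L.CosG j k X`: for all `h ∈ S_n` with less than `k` nontrivial cycles and all `c ∈ Γ`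
which commute with the image of `S_n`, the sums of `X (j (h u) c)` and of `sign(u) X (j (h u) c)`
over `u ∈ Sym(Z)` vanish (`CosZ k` is this property for functions on `S_n`). By the
Murnaghan-Nakayama rule the characters `χ_λ` of `S_n` have it if `λ` does not arise from a row or a
column by adding less than `k` rim hooks.

`Pool.Agent.N850.Dur.Thick j ι k X`: `X` is a character of `Γ`, its restriction to `G` along `ι` is
irreducible, and its restriction to `S_n` along `j` contains none of the linear characters
`1 ⊗ ⋯ ⊗ 1 ⊗ sign ⊗ ⋯ ⊗ sign` (`k` factors of each kind) of the Young subgroups with `2 k` factors.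
For the character `χ_λ` of `S_n` this says that the side of the Durfee square of `λ` is larger than
`k` (Berele and Regev).

Proof. Let `Θ` be the class function with the orders of the L-functions as multiplicities. Its
restrictions to solvable subgroups have nonnegative multiplicities. (a) Let `q = 2 ^ a ≥ 4` and
`m = ⌊n / q⌋`. Suppose that a linear character of an abelian subgroup of `A_n` occurs in `Θ` and is
nontrivial at `k` permutations with disjoint supports. These may be replaced one after the other by
involutions which move `q` points, and then by translations of `k` of `m` disjoint blocks which are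
lines over the field with `q` elements. So a character of weight `i ≥ k` of `F_q ^ m` occurs in
`Θ`, hence also all its conjugates, and `r ≥ C(m, i) (q - 1) ^ i`. (b) If `r` is smaller than these
numbers, then all mixed differences of order `k` of `Θ` vanish: if `S_n` is replaced by a
product of `k` symmetric groups, and in each factor a permutation is compared with another one of
the same sign, then the alternating sum of the `2 ^ k` values of `Θ` is zero. This is deduced from
(a), one factor after the other, with an induction over 2-groups. (c) So, as a functional on the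
polynomials in the cycle numbers, `Θ` is killed by the products of `k` differences, and
`∑ Θ(g) X(g)` becomes a sum over permutations `h` with marked cycles of values of this functional at
`∏ (x_c - x_{c'}) · ∑_u X(h u) y ^ e(u)`, where `e(u)` is the number of even cycles of `u`. The
last polynomial is divisible by `(y ^ 2 - 1) ^ (k - |h|)` because its Taylor coefficients at
`y = ± 1` are sums of `X` over cosets.
-/

set_option autoImplicit false

open Equiv Pool.Agent.H541R3.ART Pool.Agent.N850.Art Pool.Agent.N850.Dur Pool.Agent.U93.L
  Pool.Agent.U93.S

/-- Let `E/K` be Galois with group `G`, where `G` is a subgroup of a finite group `Γ` generated by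
`S_n` and its centralizer, and `G` contains `A_n` (for example `G = S_n`, `G = A_n`, or a subgroup of
`S_n × K` which contains `A_n × 1`). Let `4 k < n`, let `q = 2 ^ a ≥ 4` and `m = ⌊n / q⌋ ≥ 2, k`, and
let `ζ_E` have order `r` at `s₀ ≠ 1` with `r < C(m, i) (q - 1) ^ i` for `k ≤ i ≤ m`. (If `q ≥ k + 2`,
this is the condition `r < C(m, k) (q - 1) ^ k`. With `q` about `√n` it holds for
`r < (1 - o(1)) n ^ k / k!`.)

(1) Let `X` be a class function of `Γ` with irreducible restriction to `G` whose sums over the
cosets `h Sym(Z) c` vanish, also with signs, for all `h` with less than `k` nontrivial cycles. Then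
`L(s, X|_G)` is holomorphic and nonzero at `s₀`.

(2) In particular `L(s, X|_G)` is holomorphic and nonzero at `s₀` if the partitions of the
constituents of `X` on `S_n` have Durfee squares of side larger than `k`. -/
theorem Pool.Agent.Results.MP_d2121a_nt.PolynomialRange.result :
    ∀ (n k : ℕ) (Γ G : Type) [Group Γ] [Finite Γ] [Group G] [Finite G]
      (j : Perm (Fin n) →* Γ) (ι : G →* Γ), Central j → Function.Injective ι →
      (∀ σ ∈ alternatingGroup (Fin n), j σ ∈ ι.range) →
    ∀ (s₀ : ℂ) (A : ArtinData G s₀) (r : ℕ),
      meromorphicOrderAt (A.Lin ⊥ 1) s₀ = (r : WithTop ℤ) →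
    ∀ (a : ℕ), 4 * k < n → 2 ≤ a → 2 ≤ n / 2 ^ a → k ≤ n / 2 ^ a →
      (∀ i, k ≤ i → i ≤ n / 2 ^ a → r < (n / 2 ^ a).choose i * (2 ^ a - 1) ^ i) →
      (∀ X : Γ → ℂ, (∀ a b, X (b * a * b⁻¹) = X a) → (fun g => X (ι g)) ∈ Irr G →
        CosG j k X → meromorphicOrderAt (A.L fun g => X (ι g)) s₀ = 0) ∧
      (∀ X : Γ → ℂ, Thick j ι k X → meromorphicOrderAt (A.L fun g => X (ι g)) s₀ = 0) := by
  intro n k Γ G _ _ _ _ j ι hj hι hA s₀ A r hr a h4 ha h2 hk hrk
  have hs : Small n k r := ⟨h4, a, ha, h2, hk, hrk⟩
  exact ⟨fun X hXc hirr hX => order_zero_cos_small hj hι hA A hr hs hXc hirr hX,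
    fun X hX => order_zero_thick_small hj hι hA A hr hs hX⟩
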