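import Mathlib
import Pool.Agent.U93.Q.Main
import Pool.Agent.U93.S.Occ

/-!
# Artin L-functions over intermediate fields at zeros of quadratic order

`Pool.Agent.H541R3.ART.Irr G` is the set of irreducible complex characters of the finite group `G`.

`Pool.Agent.H541R3.ART.ArtinData G s₀` is a family of functions with the formal properties of the
Artin L-functions of a Galois extension `E/K` with group `G` near a point `s₀ ≠ 1`: functions
`L χ` for the irreducible characters `χ` of `G` and `Lin H ψ` for the linear characters `ψ` of the
subgroups `H`, such that `L χ` is meromorphic and not identically zero near `s₀` (Brauer), `Lin H ψ`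
has no pole at `s₀` (Artin reciprocity and Hecke), and `Lin H ψ` is the product of the
`L χ ^ ⟨χ|_H, ψ⟩` (induction). In particular `Lin ⊥ 1` stands for the Dedekind zeta function of `E`.

For a subgroup `M` of `G` and `χ ∈ Irr M` the Artin L-function of `χ` over the field `E ^ M` is the
product of the `L X ^ ⟨X|_M, χ⟩` over the irreducible characters `X` of `G`.

`Pool.Agent.U93.Q.Exc n l`: the number `l` is a prime with `n < 2 l + 4` or a power of two with
`n < l + 4`.

`Pool.Agent.U93.Q.fx g` is the number of the fixed points and `Pool.Agent.U93.Q.sn g` the sign of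
the permutation `g`.

`Pool.Agent.U93.Q.Van n M χ`: for each cycle `C` of exceptional length the sum of `χ (h)` over the
`h ∈ M` which have `C` as one of their cycles is zero, and also the sum of `sign(h) χ(h)`. This
condition is void if no element of `M` has a cycle of exceptional length
(`Pool.Agent.U93.Q.van_of_free`).

The proof. Let `Θ` be the Heilbronn function on `G`, the class function with the orders of the
L-functions as multiplicities; its value at `1` is the order `r` of `ζ_E`.
* Let `q = 2 ^ a ≥ 4` and `m = ⌊n / q⌋`. If a linear character of an abelian subgroup occurs in `Θ`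
  which is nontrivial on two disjoint even permutations, then these may be replaced by involutions
  which move `q` points, and these by translations of two of `m` blocks which are lines over the
  field with `q` elements; so a character of weight at least two of `F_q ^ m` occurs in `Θ`, and all
  its conjugates, which gives `r ≥ C(m, 2) (q - 1) ^ 2` (`Pool.Agent.U93.S`). Otherwise all mixed
  differences of order two of `Θ` vanish (`Pool.Agent.U93.L`): the contribution of a cycle to `Θ`
  depends only on its length and on the signs of the two parts of the permutation.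
* For a prime `q` the group of the translations of the fibres of `ℤ/m × ℤ/q` is normalized by the
  shift `t : (i, a) ↦ (i + 1, a)`, and no nontrivial linear character of it which is invariant under
  `t` is trivial on the elements with `b_i = 0`. By the additivity of `Θ` such characters do not
  occur, and by an argument of Stark and Foote `Θ` is constant on the coset of `t`. So a cycle of
  length `q m` may be replaced by `q` cycles of length `m` for odd `q`; for `q = 2` this holds on
  the average with transpositions (`Pool.Agent.U93.Q.Wr`, `Pool.Agent.U93.Q.Deriv`).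
* It follows that `Θ(g) = a + b ε(g) + (c + d ε(g)) fix(g) + ∑_C δ(|C|, ε(g) ε(C))`, where `C` runs
  through the cycles of `g` of exceptional length, `ε` is the sign, `fix` the number of fixed points
  and `c, d` are nonnegative integers (`Pool.Agent.U93.Q.Comb`, `Pool.Agent.U93.Q.Full`). For the
  alternating group the values at cycles of odd length `n - 1` and `n` need a further argument
  (`Pool.Agent.U93.Q.Alt`).
-/

set_option autoImplicit false

open Pool.Agent.H541R3.ART Pool.Agent.U93.Q Equiv

/-- Let `n ≥ 12`, let `A_n ≤ G ≤ S_n` be the Galois group of `E/K`, and let the order `r` of `ζ_E`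
at `s₀` be smaller than `C(⌊n / q⌋, 2) (q - 1) ^ 2` for some `q = 2 ^ a ≥ 4` (for `q` about `√n` this
is `(1 - o(1)) n ^ 2 / 2`; there is an irreducible character of `S_n` of degree `n (n - 3) / 2`). Let
`M` be a subgroup of `G` and let `χ` be an irreducible character of
`M` whose sums over the elements of `M` with a given cycle of exceptional length vanish, also with
signs, for example any irreducible character of `M` if no element of `M` has a cycle of exceptional
length. Then the Artin L-function `L(s, χ)` over the field `E ^ M` has no pole at `s₀`, and it is not
zero at `s₀` unless `χ` is the trivial character or the sign or occurs in the permutation character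
of `M` or in its product with the sign. -/
theorem Pool.Agent.Results.MP_d2121a_nt.QuadraticRange.result
    (n : ℕ) (G : Subgroup (Perm (Fin n))) (hG : alternatingGroup (Fin n) ≤ G)
    (s₀ : ℂ) (A : ArtinData G s₀) (r : ℕ)
    (hr : meromorphicOrderAt (A.Lin ⊥ 1) s₀ = (r : WithTop ℤ)) (hn : 12 ≤ n)
    (a : ℕ) (ha : 2 ≤ a) (hrn : r < (n / 2 ^ a).choose 2 * (2 ^ a - 1) ^ 2)
    (M : Subgroup G) (χ : M → ℂ) (hχ : χ ∈ Irr M) (hV : Van n M χ)
    (m : (G → ℂ) → ℕ)
    (hm : ∀ X ∈ Irr G, ∑ᶠ h : M, X h * χ h⁻¹ = (m X : ℂ) * Nat.card M) :
    0 ≤ meromorphicOrderAt (fun s => ∏ᶠ X ∈ Irr G, A.L X s ^ m X) s₀ ∧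
    ((χ ≠ fun _ => 1) → (χ ≠ fun h : M => sn ((h : G) : Perm (Fin n))) →
      ∑ᶠ h : M, (fx ((h : G) : Perm (Fin n)) : ℂ) * χ h = 0 →
      ∑ᶠ h : M, sn ((h : G) : Perm (Fin n)) * (fx ((h : G) : Perm (Fin n)) : ℂ) * χ h = 0 →
      meromorphicOrderAt (fun s => ∏ᶠ X ∈ Irr G, A.L X s ^ m X) s₀ = 0) :=
  order_unif hG A hr hn (Pool.Agent.U93.S.small_two hn ha hrn) M hχ hV m hm
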